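import Pool.Agent.W477.CN.Defs

set_option autoImplicit false

namespace W477.CN.EquivH359

open W477.CN Set

variable {X G : Type} [Group G] [MulAction G X]

lemma act_one (p : X × ℕ) : act (1 : G × Equiv.Perm ℕ) p = p := by
  unfold act
  simp

lemma act_mul (k h : G × Equiv.Perm ℕ) (p : X × ℕ) : act (k * h) p = act k (act h p) := by
  unfold act
  simp [mul_smul]

lemma act_inv_act (h : G × Equiv.Perm ℕ) (p : X × ℕ) : act h⁻¹ (act h p) = p := by
  rw [← act_mul, inv_mul_cancel, act_one]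

lemma act_act_inv (h : G × Equiv.Perm ℕ) (p : X × ℕ) : act h (act h⁻¹ p) = p := by
  rw [← act_mul, mul_inv_cancel, act_one]

lemma act_inj (h : G × Equiv.Perm ℕ) : Function.Injective (act h : X × ℕ → X × ℕ) := by
  intro p q hpq
  rw [← act_inv_act h p, hpq, act_inv_act]

lemma image_image_inv (h : G × Equiv.Perm ℕ) (S : Set (X × ℕ)) :
    act h⁻¹ '' (act h '' S) = S := by
  rw [Set.image_image]
  simp only [act_inv_act, Set.image_id']

lemma mem_image_mul (k h : G × Equiv.Perm ℕ) (P Q : Set (X × ℕ)) (y : X × ℕ) :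
    y ∈ act (k * h) '' (P ∩ act h⁻¹ '' Q) ↔ ∃ z, z ∈ act h '' P ∧ z ∈ Q ∧ act k z = y := by
  constructor
  · rintro ⟨x, ⟨hx, q, hq, hqx⟩, rfl⟩
    refine ⟨act h x, ⟨x, hx, rfl⟩, ?_, (act_mul k h x).symm⟩
    rw [← hqx, act_act_inv]
    exact hq
  · rintro ⟨z, ⟨x, hx, rfl⟩, hz, rfl⟩
    exact ⟨x, ⟨hx, act h x, hz, act_inv_act h x⟩, act_mul k h x⟩

theorem equiv_holds (h : P_star) : P_equiv := by
  intro X G _ _ 𝒜 hA hI
  obtain ⟨-, h2, -, h4⟩ := h X G 𝒜 hA hI
  refine ⟨?_, ?_, ?_⟩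
  · intro A hAs
    have himg : act (1 : G × Equiv.Perm ℕ) '' A = A := by
      simp only [act_one, Set.image_id']
    refine ⟨Unit, inferInstance, fun _ => A, fun _ => 1, fun _ => hAs, ?_, ?_, ?_, ?_⟩
    · intro i j hij
      exact absurd (Subsingleton.elim i j) hij
    · exact Set.iUnion_const A
    · intro i j hij
      exact absurd (Subsingleton.elim i j) hij
    · exact (Set.iUnion_const _).trans himg
  · rintro A B ⟨ι, hι, P, g, hP, hd, hu, hd', hu'⟩
    refine ⟨ι, hι, fun i => act (g i) '' P i, fun i => (g i)⁻¹, fun i => h4 _ (hP i) _, hd', hu',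
      ?_, ?_⟩
    · intro i j hij
      rw [image_image_inv, image_image_inv]
      exact hd i j hij
    · simp only [image_image_inv]
      exact hu
  · rintro A B C ⟨ι, hι, P, g, hP, hd, hu, hd', hu'⟩ ⟨κ, hκ, Q, k, hQ, hdQ, huQ, hdQ', huQ'⟩
    refine ⟨ι × κ, inferInstance, fun z => P z.1 ∩ act (g z.1)⁻¹ '' Q z.2,
      fun z => k z.2 * g z.1, fun z => (h2 _ (hP z.1) _ (h4 _ (hQ z.2) _)).2.1, ?_, ?_, ?_, ?_⟩
    · rintro ⟨i, j⟩ ⟨i', j'⟩ hij
      rw [Set.disjoint_left]
      rintro x ⟨hx, hxq⟩ ⟨hx', hxq'⟩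
      by_cases hii : i = i'
      · subst hii
        have hjj : j ≠ j' := fun e => hij (by rw [e])
        obtain ⟨q, hq, hqx⟩ := hxq
        obtain ⟨q', hq', hqx'⟩ := hxq'
        have e : q = q' := act_inj _ (hqx.trans hqx'.symm)
        subst e
        exact Set.disjoint_left.mp (hdQ j j' hjj) hq hq'
      · exact Set.disjoint_left.mp (hd i i' hii) hx hx'
    · ext x
      rw [Set.mem_iUnion]
      constructor
      · rintro ⟨z, hx, -⟩
        rw [← hu]
        exact Set.mem_iUnion.mpr ⟨z.1, hx⟩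
      · intro hx
        rw [← hu] at hx
        obtain ⟨i, hi⟩ := Set.mem_iUnion.mp hx
        have hy : act (g i) x ∈ B := by
          rw [← hu']
          exact Set.mem_iUnion.mpr ⟨i, x, hi, rfl⟩
        rw [← huQ] at hy
        obtain ⟨j, hj⟩ := Set.mem_iUnion.mp hy
        exact ⟨(i, j), hi, act (g i) x, hj, act_inv_act _ _⟩
    · rintro ⟨i, j⟩ ⟨i', j'⟩ hij
      rw [Set.disjoint_left]
      intro y hy hy'
      rw [mem_image_mul] at hy hy'
      obtain ⟨z, hz, hzQ, hzy⟩ := hy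
      obtain ⟨z', hz', hzQ', hzy'⟩ := hy'
      by_cases hjj : j = j'
      · have hii : i ≠ i' := fun e => hij (by rw [e, hjj])
        have e : z = z' := by
          apply act_inj (k j)
          change act (k j) z = act (k j) z'
          have h5 : act (k j) z' = y := by
            rw [hjj]
            exact hzy'
          exact hzy.trans h5.symm
        subst e
        exact Set.disjoint_left.mp (hd' i i' hii) hz hz'
      · exact Set.disjoint_left.mp (hdQ' j j' hjj) ⟨z, hzQ, hzy⟩ ⟨z', hzQ', hzy'⟩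
    · ext y
      rw [Set.mem_iUnion]
      constructor
      · rintro ⟨z, hz⟩
        rw [mem_image_mul] at hz
        obtain ⟨w, -, hwQ, hwy⟩ := hz
        rw [← huQ']
        exact Set.mem_iUnion.mpr ⟨z.2, w, hwQ, hwy⟩
      · intro hy
        rw [← huQ'] at hy
        obtain ⟨j, w, hw, hwy⟩ := Set.mem_iUnion.mp hy
        have hwB : w ∈ B := by
          rw [← huQ]
          exact Set.mem_iUnion.mpr ⟨j, hw⟩
        rw [← hu'] at hwB
        obtain ⟨i, hi⟩ := Set.mem_iUnion.mp hwB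
        exact ⟨(i, j), (mem_image_mul _ _ _ _ _).mpr ⟨w, hi, hw, hwy⟩⟩

end W477.CN.EquivH359
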